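import Pool.Agent.N463.MI.Stm

set_option autoImplicit false

/-!
# MI/D01: the pointwise majorant of degree 2
-/

namespace Pool.Agent.N362.MI

open Pool.Agent.N463.MI

/-- the polynomial -/
noncomputable def Qf (r c : ℝ) : ℝ :=
  (1 + 2 * r * c + r ^ 2) * (133 / 100 - 67 / 100 * r - c + 9 / 10 * (2 * c ^ 2 - 1)) -
    (4 * c ^ 3 - 3 * c) - r * (2 * c ^ 2 - 1)

section boxes

variable {s s' u u' : ℝ} (hs : 0 ≤ s) (hs' : 0 ≤ s') (hu : 0 ≤ u) (hu' : 0 ≤ u')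
  (h1 : s' = 1 - s) (h2 : u' = 1 - u)

include hs hs' hu hu' h1 h2

theorem box0 : 0 ≤ Qf (0 + 1/2 * s) (-1 + 1/2 * u) := by
  have h : Qf (0 + 1/2 * s) (-1 + 1/2 * u) =
      (423/100) * (s ^ 0 * s' ^ 3 * (u ^ 0 * u' ^ 3)) +
      (589/100) * (s ^ 0 * s' ^ 3 * (u ^ 1 * u' ^ 2)) +
      (127/50) * (s ^ 0 * s' ^ 3 * (u ^ 2 * u' ^ 1)) +
      (19/50) * (s ^ 0 * s' ^ 3 * (u ^ 3 * u' ^ 0)) +
      (69/8) * (s ^ 1 * s' ^ 2 * (u ^ 0 * u' ^ 3)) +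
      (1039/100) * (s ^ 1 * s' ^ 2 * (u ^ 1 * u' ^ 2)) +
      (681/200) * (s ^ 1 * s' ^ 2 * (u ^ 2 * u' ^ 1)) +
      (73/200) * (s ^ 1 * s' ^ 2 * (u ^ 3 * u' ^ 0)) +
      (2281/400) * (s ^ 2 * s' ^ 1 * (u ^ 0 * u' ^ 3)) +
      (1159/200) * (s ^ 2 * s' ^ 1 * (u ^ 1 * u' ^ 2)) +
      (249/200) * (s ^ 2 * s' ^ 1 * (u ^ 2 * u' ^ 1)) +
      (41/400) * (s ^ 2 * s' ^ 1 * (u ^ 3 * u' ^ 0)) +
      (979/800) * (s ^ 3 * s' ^ 0 * (u ^ 0 * u' ^ 3)) +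
      (167/160) * (s ^ 3 * s' ^ 0 * (u ^ 1 * u' ^ 2)) +
      (103/800) * (s ^ 3 * s' ^ 0 * (u ^ 2 * u' ^ 1)) +
      (27/800) * (s ^ 3 * s' ^ 0 * (u ^ 3 * u' ^ 0)) := by
    rw [h1, h2]
    unfold Qf
    ring
  rw [h]
  positivity

theorem box1 : 0 ≤ Qf (0 + 1/2 * s) (-1/2 + 1/8 * u) := by
  have h : Qf (0 + 1/2 * s) (-1/2 + 1/8 * u) =
      (19/50) * (s ^ 0 * s' ^ 3 * (u ^ 0 * u' ^ 3)) +
      (79/100) * (s ^ 0 * s' ^ 3 * (u ^ 1 * u' ^ 2)) +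
      (899/1600) * (s ^ 0 * s' ^ 3 * (u ^ 2 * u' ^ 1)) +
      (461/3200) * (s ^ 0 * s' ^ 3 * (u ^ 3 * u' ^ 0)) +
      (73/200) * (s ^ 1 * s' ^ 2 * (u ^ 0 * u' ^ 3)) +
      (207/400) * (s ^ 1 * s' ^ 2 * (u ^ 1 * u' ^ 2)) +
      (743/3200) * (s ^ 1 * s' ^ 2 * (u ^ 2 * u' ^ 1)) +
      (153/2560) * (s ^ 1 * s' ^ 2 * (u ^ 3 * u' ^ 0)) +
      (41/400) * (s ^ 2 * s' ^ 1 * (u ^ 0 * u' ^ 3)) +
      (117/1600) * (s ^ 2 * s' ^ 1 * (u ^ 1 * u' ^ 2)) +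
      (413/6400) * (s ^ 2 * s' ^ 1 * (u ^ 2 * u' ^ 1)) +
      (31/400) * (s ^ 2 * s' ^ 1 * (u ^ 3 * u' ^ 0)) +
      (27/800) * (s ^ 3 * s' ^ 0 * (u ^ 0 * u' ^ 3)) +
      (151/1600) * (s ^ 3 * s' ^ 0 * (u ^ 1 * u' ^ 2)) +
      (183/1280) * (s ^ 3 * s' ^ 0 * (u ^ 2 * u' ^ 1)) +
      (999/12800) * (s ^ 3 * s' ^ 0 * (u ^ 3 * u' ^ 0)) := by
    rw [h1, h2]
    unfold Qf
    ring
  rw [h]
  positivity

theorem box2 : 0 ≤ Qf (0 + 1/2 * s) (-3/8 + 3/8 * u) := by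
  have h : Qf (0 + 1/2 * s) (-3/8 + 3/8 * u) =
      (461/3200) * (s ^ 0 * s' ^ 3 * (u ^ 0 * u' ^ 3)) +
      (69/1600) * (s ^ 0 * s' ^ 3 * (u ^ 1 * u' ^ 2)) +
      (27/50) * (s ^ 0 * s' ^ 3 * (u ^ 2 * u' ^ 1)) +
      (43/100) * (s ^ 0 * s' ^ 3 * (u ^ 3 * u' ^ 0)) +
      (153/2560) * (s ^ 1 * s' ^ 2 * (u ^ 0 * u' ^ 3)) +
      (33/1600) * (s ^ 1 * s' ^ 2 * (u ^ 1 * u' ^ 2)) +
      (1563/800) * (s ^ 1 * s' ^ 2 * (u ^ 2 * u' ^ 1)) +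
      (291/200) * (s ^ 1 * s' ^ 2 * (u ^ 3 * u' ^ 0)) +
      (31/400) * (s ^ 2 * s' ^ 1 * (u ^ 0 * u' ^ 3)) +
      (4713/6400) * (s ^ 2 * s' ^ 1 * (u ^ 1 * u' ^ 2)) +
      (4527/1600) * (s ^ 2 * s' ^ 1 * (u ^ 2 * u' ^ 1)) +
      (691/400) * (s ^ 2 * s' ^ 1 * (u ^ 3 * u' ^ 0)) +
      (999/12800) * (s ^ 3 * s' ^ 0 * (u ^ 0 * u' ^ 3)) +
      (3249/6400) * (s ^ 3 * s' ^ 0 * (u ^ 1 * u' ^ 2)) +
      (1863/1600) * (s ^ 3 * s' ^ 0 * (u ^ 2 * u' ^ 1)) +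
      (99/160) * (s ^ 3 * s' ^ 0 * (u ^ 3 * u' ^ 0)) := by
    rw [h1, h2]
    unfold Qf
    ring
  rw [h]
  positivity

theorem box3 : 0 ≤ Qf (0 + 1/2 * s) (0 + 1 * u) := by
  have h : Qf (0 + 1/2 * s) (0 + 1 * u) =
      (43/100) * (s ^ 0 * s' ^ 3 * (u ^ 0 * u' ^ 3)) +
      (329/100) * (s ^ 0 * s' ^ 3 * (u ^ 1 * u' ^ 2)) +
      (709/100) * (s ^ 0 * s' ^ 3 * (u ^ 2 * u' ^ 1)) +
      (23/100) * (s ^ 0 * s' ^ 3 * (u ^ 3 * u' ^ 0)) +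
      (291/200) * (s ^ 1 * s' ^ 2 * (u ^ 0 * u' ^ 3)) +
      (2159/200) * (s ^ 1 * s' ^ 2 * (u ^ 1 * u' ^ 2)) +
      (165/8) * (s ^ 1 * s' ^ 2 * (u ^ 2 * u' ^ 1)) +
      (217/200) * (s ^ 1 * s' ^ 2 * (u ^ 3 * u' ^ 0)) +
      (691/400) * (s ^ 2 * s' ^ 1 * (u ^ 0 * u' ^ 3)) +
      (4583/400) * (s ^ 2 * s' ^ 1 * (u ^ 1 * u' ^ 2)) +
      (7833/400) * (s ^ 2 * s' ^ 1 * (u ^ 2 * u' ^ 1)) +
      (581/400) * (s ^ 2 * s' ^ 1 * (u ^ 3 * u' ^ 0)) +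
      (99/160) * (s ^ 3 * s' ^ 0 * (u ^ 0 * u' ^ 3)) +
      (2961/800) * (s ^ 3 * s' ^ 0 * (u ^ 1 * u' ^ 2)) +
      (4637/800) * (s ^ 3 * s' ^ 0 * (u ^ 2 * u' ^ 1)) +
      (411/800) * (s ^ 3 * s' ^ 0 * (u ^ 3 * u' ^ 0)) := by
    rw [h1, h2]
    unfold Qf
    ring
  rw [h]
  positivity

theorem box4 : 0 ≤ Qf (1/2 + 1/2 * s) (-1 + 1/3 * u) := by
  have h : Qf (1/2 + 1/2 * s) (-1 + 1/3 * u) =
      (979/800) * (s ^ 0 * s' ^ 3 * (u ^ 0 * u' ^ 3)) +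
      (4607/2400) * (s ^ 0 * s' ^ 3 * (u ^ 1 * u' ^ 2)) +
      (6689/7200) * (s ^ 0 * s' ^ 3 * (u ^ 2 * u' ^ 1)) +
      (3277/21600) * (s ^ 0 * s' ^ 3 * (u ^ 3 * u' ^ 0)) +
      (41/25) * (s ^ 1 * s' ^ 2 * (u ^ 0 * u' ^ 3)) +
      (1171/600) * (s ^ 1 * s' ^ 2 * (u ^ 1 * u' ^ 2)) +
      (49/90) * (s ^ 1 * s' ^ 2 * (u ^ 2 * u' ^ 1)) +
      (11/200) * (s ^ 1 * s' ^ 2 * (u ^ 3 * u' ^ 0)) +
      (1/2) * (s ^ 2 * s' ^ 1 * (u ^ 0 * u' ^ 3)) +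
      (97/300) * (s ^ 2 * s' ^ 1 * (u ^ 1 * u' ^ 2)) +
      (8/225) * (s ^ 2 * s' ^ 1 * (u ^ 2 * u' ^ 1)) +
      (91/900) * (s ^ 2 * s' ^ 1 * (u ^ 3 * u' ^ 0)) +
      (1/25) * (s ^ 3 * s' ^ 0 * (u ^ 1 * u' ^ 2)) +
      (38/225) * (s ^ 3 * s' ^ 0 * (u ^ 2 * u' ^ 1)) +
      (77/675) * (s ^ 3 * s' ^ 0 * (u ^ 3 * u' ^ 0)) := by
    rw [h1, h2]
    unfold Qf
    ring
  rw [h]
  positivity

theorem box5 : 0 ≤ Qf (1/2 + 1/2 * s) (-2/3 + 1/9 * u) := by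
  have h : Qf (1/2 + 1/2 * s) (-2/3 + 1/9 * u) =
      (3277/21600) * (s ^ 0 * s' ^ 3 * (u ^ 0 * u' ^ 3)) +
      (6419/21600) * (s ^ 0 * s' ^ 3 * (u ^ 1 * u' ^ 2)) +
      (4247/21600) * (s ^ 0 * s' ^ 3 * (u ^ 2 * u' ^ 1)) +
      (1123/23328) * (s ^ 0 * s' ^ 3 * (u ^ 3 * u' ^ 0)) +
      (11/200) * (s ^ 1 * s' ^ 2 * (u ^ 0 * u' ^ 3)) +
      (26/675) * (s ^ 1 * s' ^ 2 * (u ^ 1 * u' ^ 2)) +
      (17/648) * (s ^ 1 * s' ^ 2 * (u ^ 2 * u' ^ 1)) +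
      (439/12150) * (s ^ 1 * s' ^ 2 * (u ^ 3 * u' ^ 0)) +
      (91/900) * (s ^ 2 * s' ^ 1 * (u ^ 0 * u' ^ 3)) +
      (53/135) * (s ^ 2 * s' ^ 1 * (u ^ 1 * u' ^ 2)) +
      (4403/8100) * (s ^ 2 * s' ^ 1 * (u ^ 2 * u' ^ 1)) +
      (3013/12150) * (s ^ 2 * s' ^ 1 * (u ^ 3 * u' ^ 0)) +
      (77/675) * (s ^ 3 * s' ^ 0 * (u ^ 0 * u' ^ 3)) +
      (2/5) * (s ^ 3 * s' ^ 0 * (u ^ 1 * u' ^ 2)) +
      (937/2025) * (s ^ 3 * s' ^ 0 * (u ^ 2 * u' ^ 1)) +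
      (3212/18225) * (s ^ 3 * s' ^ 0 * (u ^ 3 * u' ^ 0)) := by
    rw [h1, h2]
    unfold Qf
    ring
  rw [h]
  positivity

theorem box6 : 0 ≤ Qf (1/2 + 1/2 * s) (-5/9 + 2/9 * u) := by
  have h : Qf (1/2 + 1/2 * s) (-5/9 + 2/9 * u) =
      (1123/23328) * (s ^ 0 * s' ^ 3 * (u ^ 0 * u' ^ 3)) +
      (2593/64800) * (s ^ 0 * s' ^ 3 * (u ^ 1 * u' ^ 2)) +
      (929/7200) * (s ^ 0 * s' ^ 3 * (u ^ 2 * u' ^ 1)) +
      (2441/21600) * (s ^ 0 * s' ^ 3 * (u ^ 3 * u' ^ 0)) +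
      (439/12150) * (s ^ 1 * s' ^ 2 * (u ^ 0 * u' ^ 3)) +
      (2209/8100) * (s ^ 1 * s' ^ 2 * (u ^ 1 * u' ^ 2)) +
      (22/27) * (s ^ 1 * s' ^ 2 * (u ^ 2 * u' ^ 1)) +
      (473/900) * (s ^ 1 * s' ^ 2 * (u ^ 3 * u' ^ 0)) +
      (3013/12150) * (s ^ 2 * s' ^ 1 * (u ^ 0 * u' ^ 3)) +
      (2318/2025) * (s ^ 2 * s' ^ 1 * (u ^ 1 * u' ^ 2)) +
      (2353/1350) * (s ^ 2 * s' ^ 1 * (u ^ 2 * u' ^ 1)) +
      (61/75) * (s ^ 2 * s' ^ 1 * (u ^ 3 * u' ^ 0)) +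
      (3212/18225) * (s ^ 3 * s' ^ 0 * (u ^ 0 * u' ^ 3)) +
      (446/675) * (s ^ 3 * s' ^ 0 * (u ^ 1 * u' ^ 2)) +
      (544/675) * (s ^ 3 * s' ^ 0 * (u ^ 2 * u' ^ 1)) +
      (214/675) * (s ^ 3 * s' ^ 0 * (u ^ 3 * u' ^ 0)) := by
    rw [h1, h2]
    unfold Qf
    ring
  rw [h]
  positivity

theorem box7 : 0 ≤ Qf (1/2 + 1/2 * s) (-1/3 + 4/3 * u) := by
  have h : Qf (1/2 + 1/2 * s) (-1/3 + 4/3 * u) =
      (2441/21600) * (s ^ 0 * s' ^ 3 * (u ^ 0 * u' ^ 3)) +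
      (11513/7200) * (s ^ 0 * s' ^ 3 * (u ^ 1 * u' ^ 2)) +
      (3463/480) * (s ^ 0 * s' ^ 3 * (u ^ 2 * u' ^ 1)) +
      (411/800) * (s ^ 0 * s' ^ 3 * (u ^ 3 * u' ^ 0)) +
      (473/900) * (s ^ 1 * s' ^ 2 * (u ^ 0 * u' ^ 3)) +
      (5533/900) * (s ^ 1 * s' ^ 2 * (u ^ 1 * u' ^ 2)) +
      (1863/100) * (s ^ 1 * s' ^ 2 * (u ^ 2 * u' ^ 1)) +
      (163/100) * (s ^ 1 * s' ^ 2 * (u ^ 3 * u' ^ 0)) +
      (61/75) * (s ^ 2 * s' ^ 1 * (u ^ 0 * u' ^ 3)) +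
      (298/45) * (s ^ 2 * s' ^ 1 * (u ^ 1 * u' ^ 2)) +
      (359/25) * (s ^ 2 * s' ^ 1 * (u ^ 2 * u' ^ 1)) +
      (36/25) * (s ^ 2 * s' ^ 1 * (u ^ 3 * u' ^ 0)) +
      (214/675) * (s ^ 3 * s' ^ 0 * (u ^ 0 * u' ^ 3)) +
      (82/45) * (s ^ 3 * s' ^ 0 * (u ^ 1 * u' ^ 2)) +
      (202/75) * (s ^ 3 * s' ^ 0 * (u ^ 2 * u' ^ 1)) +
      (6/25) * (s ^ 3 * s' ^ 0 * (u ^ 3 * u' ^ 0)) := by
    rw [h1, h2]
    unfold Qf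
    ring
  rw [h]
  positivity

end boxes

theorem box_of {r0 h c0 k r c : ℝ} (hh : 0 < h) (hk : 0 < k)
    (H : ∀ s s' u u' : ℝ, 0 ≤ s → 0 ≤ s' → 0 ≤ u → 0 ≤ u' → s' = 1 - s → u' = 1 - u →
      0 ≤ Qf (r0 + h * s) (c0 + k * u)) (hr : r0 ≤ r) (hr' : r ≤ r0 + h) (hc : c0 ≤ c)
    (hc' : c ≤ c0 + k) : 0 ≤ Qf r c := by
  have e1 : r0 + h * ((r - r0) / h) = r := by
    field_simp
    ring
  have e2 : c0 + k * ((c - c0) / k) = c := by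
    field_simp
    ring
  have := H ((r - r0) / h) (1 - (r - r0) / h) ((c - c0) / k) (1 - (c - c0) / k)
    (div_nonneg (by linarith) hh.le) (by rw [sub_nonneg, div_le_one hh]; linarith)
    (div_nonneg (by linarith) hk.le) (by rw [sub_nonneg, div_le_one hk]; linarith) rfl rfl
  rwa [e1, e2] at this

theorem Q_nonneg {r c : ℝ} (hr : 0 ≤ r) (hr' : r ≤ 1) (hc : -1 ≤ c) (hc' : c ≤ 1) :
    0 ≤ Qf r c := by
  rcases le_total r (1 / 2) with h | h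

  · rcases le_total c (-1/2) with g | g
    · exact box_of (r0 := 0) (h := 1/2) (c0 := -1) (k := 1/2) (by norm_num) (by norm_num)
        (fun s s' u u' a1 a2 a3 a4 a5 a6 => box0 a1 a2 a3 a4 a5 a6) (by linarith) (by linarith) (by linarith) (by linarith)
    rcases le_total c (-3/8) with g1 | g1
    · exact box_of (r0 := 0) (h := 1/2) (c0 := -1/2) (k := 1/8) (by norm_num) (by norm_num)
        (fun s s' u u' a1 a2 a3 a4 a5 a6 => box1 a1 a2 a3 a4 a5 a6) (by linarith) (by linarith) (by linarith) (by linarith)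
    rcases le_total c (0) with g2 | g2
    · exact box_of (r0 := 0) (h := 1/2) (c0 := -3/8) (k := 3/8) (by norm_num) (by norm_num)
        (fun s s' u u' a1 a2 a3 a4 a5 a6 => box2 a1 a2 a3 a4 a5 a6) (by linarith) (by linarith) (by linarith) (by linarith)
    · exact box_of (r0 := 0) (h := 1/2) (c0 := 0) (k := 1) (by norm_num) (by norm_num)
        (fun s s' u u' a1 a2 a3 a4 a5 a6 => box3 a1 a2 a3 a4 a5 a6) (by linarith) (by linarith) (by linarith) (by linarith)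

  · rcases le_total c (-2/3) with g | g
    · exact box_of (r0 := 1/2) (h := 1/2) (c0 := -1) (k := 1/3) (by norm_num) (by norm_num)
        (fun s s' u u' a1 a2 a3 a4 a5 a6 => box4 a1 a2 a3 a4 a5 a6) (by linarith) (by linarith) (by linarith) (by linarith)
    rcases le_total c (-5/9) with g1 | g1
    · exact box_of (r0 := 1/2) (h := 1/2) (c0 := -2/3) (k := 1/9) (by norm_num) (by norm_num)
        (fun s s' u u' a1 a2 a3 a4 a5 a6 => box5 a1 a2 a3 a4 a5 a6) (by linarith) (by linarith) (by linarith) (by linarith)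
    rcases le_total c (-1/3) with g2 | g2
    · exact box_of (r0 := 1/2) (h := 1/2) (c0 := -5/9) (k := 2/9) (by norm_num) (by norm_num)
        (fun s s' u u' a1 a2 a3 a4 a5 a6 => box6 a1 a2 a3 a4 a5 a6) (by linarith) (by linarith) (by linarith) (by linarith)
    · exact box_of (r0 := 1/2) (h := 1/2) (c0 := -1/3) (k := 4/3) (by norm_num) (by norm_num)
        (fun s s' u u' a1 a2 a3 a4 a5 a6 => box7 a1 a2 a3 a4 a5 a6) (by linarith) (by linarith) (by linarith) (by linarith)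


/-- the exponent -/
noncomputable def Hf (c r : ℝ) : ℝ := 2 * (133 / 300 * r ^ 3 - 67 / 400 * r ^ 4
    + (r - r ^ 3 / 3) * c - (r ^ 2 / 2 - 3 / 10 * r ^ 3) * (2 * c ^ 2 - 1))

/-- the quotient -/
noncomputable def ff (c r : ℝ) : ℝ := (1 + 2 * r * c + r ^ 2) * Real.exp (-Hf c r)

theorem Hf_deriv (c r : ℝ) : HasDerivAt (Hf c) (2 * (133 / 100 * r ^ 2 - 67 / 100 * r ^ 3
    + (1 - r ^ 2) * c - (r - 9 / 10 * r ^ 2) * (2 * c ^ 2 - 1))) r := by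
  have h1 := hasDerivAt_id' r
  have h2 : HasDerivAt (fun r : ℝ => r ^ 2) (2 * r) r := by simpa using hasDerivAt_pow 2 r
  have h3 : HasDerivAt (fun r : ℝ => r ^ 3) (3 * r ^ 2) r := by simpa using hasDerivAt_pow 3 r
  have h4 : HasDerivAt (fun r : ℝ => r ^ 4) (4 * r ^ 3) r := by simpa using hasDerivAt_pow 4 r
  have h := ((((h3.const_mul (133 / 300 : ℝ)).sub (h4.const_mul (67 / 400 : ℝ))).add
    ((h1.sub (h3.div_const 3)).mul_const c)).sub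
    (((h2.div_const 2).sub (h3.const_mul (3 / 10 : ℝ))).mul_const (2 * c ^ 2 - 1))).const_mul (2 : ℝ)
  unfold Hf
  refine h.congr_deriv ?_
  ring

theorem ff_deriv (c r : ℝ) : HasDerivAt (ff c) (-(2 * r ^ 2 * Qf r c) * Real.exp (-Hf c r)) r := by
  have h1 := hasDerivAt_id' r
  have h2 : HasDerivAt (fun r : ℝ => r ^ 2) (2 * r) r := by simpa using hasDerivAt_pow 2 r
  have h3 : HasDerivAt (fun r : ℝ => 1 + 2 * r * c + r ^ 2) (2 * c + 2 * r) r := by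
    have := (((h1.const_mul 2).mul_const c).const_add 1).add h2
    refine this.congr_deriv ?_
    ring
  have h := h3.mul (Hf_deriv c r).neg.exp
  unfold ff
  refine h.congr_deriv ?_
  rw [Pi.neg_apply]
  unfold Qf
  ring

theorem ff_le {c r : ℝ} (hr : 0 ≤ r) (hr' : r ≤ 1) (hc : -1 ≤ c) (hc' : c ≤ 1) : ff c r ≤ 1 := by
  have h0 : ff c 0 = 1 := by
    unfold ff Hf
    norm_num
  rw [← h0]
  have hanti : AntitoneOn (ff c) (Set.Icc 0 1) := by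
    refine antitoneOn_of_deriv_nonpos (convex_Icc 0 1) ?_ ?_ ?_
    · exact fun x _ => (ff_deriv c x).continuousAt.continuousWithinAt
    · exact fun x _ => (ff_deriv c x).differentiableAt.differentiableWithinAt
    · intro x hx
      rw [interior_Icc] at hx
      rw [(ff_deriv c x).deriv]
      have h1 := Q_nonneg hx.1.le hx.2.le hc hc'
      have h2 : 0 ≤ 2 * x ^ 2 * Qf x c := by positivity
      have h3 := Real.exp_pos (-Hf c x)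
      nlinarith
  exact hanti ⟨le_rfl, zero_le_one⟩ ⟨hr, hr'⟩ hr

/-- **D01** -/
theorem t_D01 : D01 := by
  intro r φ hr hr'
  have h := ff_le (c := Real.cos φ) hr hr' (Real.neg_one_le_cos φ) (Real.cos_le_one φ)
  rw [Real.cos_two_mul]
  unfold ff at h
  rw [Real.exp_neg, ← div_eq_mul_inv, div_le_one (Real.exp_pos _)] at h
  exact h

end Pool.Agent.N362.MI
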